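import Pool.Agent.H75C.HY.NF

set_option autoImplicit false

/-!
# Realisation of well-formed tests (statement A5)
-/

namespace Pool.Agent.Helper82.NF

open Pool.Agent.H75C.HY Pool.Agent.H75C.HY.NF

open Classical

theorem outer_succ {d : ℕ} {x : Nm} : outer (d + 1) x ↔ x = .lv d ∨ outer d x := by
  cases x with
  | nom i => simp [outer]
  | fr i => simp [outer]
  | lv j =>
    simp only [outer, Nm.lv.injEq]
    omega

theorem ne_of_outer {d : ℕ} {x : Nm} (h : outer d x) : x ≠ .lv d := by
  rintro rfl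
  exact lt_irrefl _ h

/-- the statement A5 for one test -/
def Good (τ : Bool) (k d : ℕ) (t : T k) (G : Gd) : Prop :=
    (∀ p x, G.out p x → outer d x) ∧
    (τ = true → ∀ p, (∃ q, G.R p q) ∨ ∃ x, G.out p x) ∧
    ∀ (K : Model) (ρ : Nm → K.W) (ι : G.P → K.W), Host d G K ρ ι →
      vt K k ρ d (ι G.root) t = 1 ∧
      ∀ t', wf τ k d t' → vt K k ρ d (ι G.root) t' ≠ 0 → le k t' t

section
variable {k : ℕ} (d : ℕ) (A : Finset (E k)) (V0 : ℕ → Prop) (G : {t : T k // (Sum.inr t : E k) ∈ A} → Gd)

abbrev PP : Type := Option (Σ t : {t : T k // (Sum.inr t : E k) ∈ A}, (G t).P)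

def gR : PP A G → PP A G → Prop
  | none, none => (Sum.inl (Nm.lv d) : E k) ∈ A
  | none, some s => s.2 = (G s.1).root
  | some s, none => (G s.1).out s.2 (.lv d)
  | some s, some s' => ∃ q : (G s.1).P, s' = ⟨s.1, q⟩ ∧ (G s.1).R s.2 q

def gO : PP A G → Nm → Prop
  | none, x => outer d x ∧ (Sum.inl x : E k) ∈ A
  | some s, x => outer d x ∧ (G s.1).out s.2 x

def gV : ℕ → PP A G → Prop
  | i, none => V0 i
  | i, some s => (G s.1).V i s.2

def gad : Gd := ⟨PP A G, none, gR d A G, gO d A G, gV A V0 G⟩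

variable {d A V0 G} {K : Model} {ρ : Nm → K.W} {ι : (gad d A V0 G).P → K.W}

theorem host_sub (h : Host d (gad d A V0 G) K ρ ι) (t : {t : T k // (Sum.inr t : E k) ∈ A}) :
    Host (d + 1) (G t) K (Function.update ρ (.lv d) (ι none)) (fun p => ι (some ⟨t, p⟩)) := by
  have hup : ∀ x, outer d x → Function.update ρ (.lv d) (ι none) x = ρ x := fun x hx =>
    Function.update_of_ne (ne_of_outer hx) _ _
  have hlv : Function.update ρ (.lv d) (ι none) (.lv d) = ι none := Function.update_self _ _ _
  refine ⟨?_, ?_, ?_, ?_, ?_⟩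
  · intro p q hpq
    have h1 : (some ⟨t, p⟩ : PP A G) = some ⟨t, q⟩ := h.inj hpq
    exact eq_of_heq (Sigma.mk.inj (Option.some.inj h1)).2
  · intro p v
    refine (h.R (some ⟨t, p⟩) v).trans ?_
    constructor
    · rintro (⟨q, hq, rfl⟩ | ⟨x, hx, ho, rfl⟩)
      · cases q with
        | none => exact Or.inr ⟨.lv d, outer_succ.2 (Or.inl rfl), hq, hlv.symm⟩
        | some s =>
          obtain ⟨q', rfl, h2⟩ := hq
          exact Or.inl ⟨q', h2, rfl⟩
      · exact Or.inr ⟨x, outer_succ.2 (Or.inr hx), ho.2, (hup x hx).symm⟩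
    · rintro (⟨q, hq, rfl⟩ | ⟨x, hx, ho, rfl⟩)
      · exact Or.inl ⟨some ⟨t, q⟩, ⟨q, rfl, hq⟩, rfl⟩
      · rcases outer_succ.1 hx with rfl | hx'
        · exact Or.inl ⟨none, ho, hlv⟩
        · exact Or.inr ⟨x, hx', ⟨hx', ho⟩, hup x hx'⟩
  · intro i p
    exact h.V i (some ⟨t, p⟩)
  · intro x hx p
    rcases outer_succ.1 hx with rfl | hx'
    · rw [hlv]
      intro h1
      have h2 := h.inj h1
      simp at h2
    · rw [hup x hx']
      exact h.ne x hx' _
  · intro x y hx hy hxy
    rcases outer_succ.1 hx with rfl | hx' <;> rcases outer_succ.1 hy with rfl | hy'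
    · rfl
    · rw [hlv, hup y hy'] at hxy
      exact absurd hxy.symm (h.ne y hy' _)
    · rw [hlv, hup x hx'] at hxy
      exact absurd hxy (h.ne x hx' _)
    · rw [hup x hx', hup y hy'] at hxy
      exact h.rinj x y hx' hy' hxy

end

theorem eo_order {k : ℕ} (h2 : A2) : (∀ a, eo (le k) a a) ∧
    (∀ a b c, eo (le k) a b → eo (le k) b c → eo (le k) a c) ∧
    ∀ a b, eo (le k) a b → eo (le k) b a → a = b := by
  obtain ⟨r1, r2, r3⟩ := h2 k
  refine ⟨?_, ?_, ?_⟩
  · rintro (x | t)
    · rfl
    · exact r1 t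
  · rintro (x | s) (y | t) (z | u) h h'
    · exact Eq.trans h h'
    · exact h'.elim
    · exact h.elim
    · exact h.elim
    · trivial
    · exact h'.elim
    · trivial
    · exact r2 _ _ _ h h'
  · rintro (x | s) (y | t) h h'
    · exact congrArg _ h
    · exact h.elim
    · exact h'.elim
    · exact congrArg _ (r3 _ _ h h')

theorem core (h2 : A2) (h3 : A3) (τ : Bool) (k d : ℕ) (A : Finset (E k)) (V0 : ℕ → Prop)
    (hA : ∀ e ∈ A, ewf (wf τ k (d + 1)) (d + 1) e) (hne : τ = true → A.Nonempty)
    (ih : ∀ t : T k, wf τ k (d + 1) t → ∃ G : Gd, Good τ k (d + 1) t G) :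
    ∃ G : Gd, (∀ p x, G.out p x → outer d x) ∧
      (τ = true → ∀ p, (∃ q, G.R p q) ∨ ∃ x, G.out p x) ∧
      ∀ (K : Model) (ρ : Nm → K.W) (ι : G.P → K.W), Host d G K ρ ι →
        (∀ i, K.V i (ι G.root) ↔ V0 i) ∧
        ∀ A' : Finset (E k), (∀ e ∈ A', ewf (wf τ k (d + 1)) (d + 1) e) →
          (vt K (k + 1) ρ d (ι G.root) (tst A') ≠ 0 → so (eo (le k)) A' A) ∧
          (A' = A → A.Nonempty → vt K (k + 1) ρ d (ι G.root) (tst A') = 1) := by
  have ih' : ∀ t : {t : T k // (Sum.inr t : E k) ∈ A}, ∃ G : Gd, Good τ k (d + 1) t.1 G :=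
    fun t => ih t.1 (hA _ t.2)
  choose G hG using ih'
  refine ⟨gad d A V0 G, ?_, ?_, ?_⟩
  · rintro (_ | s) x h
    · exact h.1
    · exact h.1
  · rintro hτ (_ | s)
    · obtain ⟨e, he⟩ := hne hτ
      cases e with
      | inl x =>
        rcases outer_succ.1 (hA _ he) with rfl | hx
        · exact Or.inl ⟨none, he⟩
        · exact Or.inr ⟨x, hx, he⟩
      | inr t => exact Or.inl ⟨some ⟨⟨t, he⟩, (G ⟨t, he⟩).root⟩, rfl⟩
    · obtain ⟨t, p⟩ := s
      rcases (hG t).2.1 hτ p with ⟨q, hq⟩ | ⟨x, hx⟩
      · exact Or.inl ⟨some ⟨t, q⟩, q, rfl, hq⟩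
      · rcases outer_succ.1 ((hG t).1 p x hx) with rfl | hx'
        · exact Or.inl ⟨none, hx⟩
        · exact Or.inr ⟨x, hx', hx⟩
  · intro K ρ ι hH
    refine ⟨fun i => hH.V i none, ?_⟩
    intro A' hA'
    set ρ' : Nm → K.W := Function.update ρ (.lv d) (ι none) with hρ'
    have hsub := host_sub hH
    have hup : ∀ x, outer d x → ρ' x = ρ x := fun x hx =>
      Function.update_of_ne (ne_of_outer hx) _ _
    have hlv : ρ' (.lv d) = ι none := Function.update_self _ _ _
    -- the successor belonging to an element of `A`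
    set s : E k → K.W := fun a => match a with
      | .inl x => ρ' x
      | .inr t => if h : (Sum.inr t : E k) ∈ A then ι (some ⟨⟨t, h⟩, (G ⟨t, h⟩).root⟩) else ι none
      with hs
    have hsinl : ∀ x, s (.inl x) = ρ' x := fun x => rfl
    have hsinr : ∀ t (h : (Sum.inr t : E k) ∈ A),
        s (.inr t) = ι (some ⟨⟨t, h⟩, (G ⟨t, h⟩).root⟩) := fun t h => dif_pos h
    have hsucc : ∀ v, K.R (ι none) v ↔ ∃ a ∈ A, v = s a := by
      intro v
      refine (hH.R none v).trans ?_
      constructor
      · rintro (⟨q, hq, rfl⟩ | ⟨x, hx, ho, rfl⟩)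
        · cases q with
          | none => exact ⟨.inl (.lv d), hq, hlv.symm⟩
          | some q =>
            obtain ⟨t, p⟩ := q
            have hq' : p = (G t).root := hq
            subst hq'
            exact ⟨.inr t.1, t.2, (hsinr t.1 t.2).symm⟩
        · exact ⟨.inl x, ho.2, (hup x hx).symm⟩
      · rintro ⟨a, ha, rfl⟩
        cases a with
        | inl x =>
          rcases outer_succ.1 (hA _ ha) with rfl | hx
          · exact Or.inl ⟨none, ha, hlv⟩
          · exact Or.inr ⟨x, hx, ⟨hx, ha⟩, hup x hx⟩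
        | inr t =>
          exact Or.inl ⟨some ⟨⟨t, ha⟩, (G ⟨t, ha⟩).root⟩, rfl, hsinr t ha⟩
    set ee : E k → E k → ZMod 2 := fun b a => ve ρ' (vt K k ρ' (d + 1) (s a)) (s a) b with hee
    have hval : vt K (k + 1) ρ d (ι none) (tst A') =
        ∑ B ∈ A'.powerset, if ∃ a ∈ A, ∑ b ∈ B, ee b a = 1 then (1 : ZMod 2) else 0 := by
      have h1 : vt K (k + 1) ρ d (ι none) (tst A') =
        ∑ B ∈ A'.powerset, if ∃ v, K.R (ι none) v ∧
          ∑ e ∈ B, ve (Function.update ρ (.lv d) (ι none))
            (vt K k (Function.update ρ (.lv d) (ι none)) (d + 1) v) v e = 1 then 1 else 0 := rfl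
      rw [h1]
      refine Finset.sum_congr rfl fun B _ => if_congr ?_ rfl rfl
      constructor
      · rintro ⟨v, hv, h⟩
        obtain ⟨a, ha, rfl⟩ := (hsucc v).1 hv
        exact ⟨a, ha, h⟩
      · rintro ⟨a, ha, h⟩
        exact ⟨s a, (hsucc _).2 ⟨a, ha, rfl⟩, h⟩
    obtain ⟨r1, r2, r3⟩ := eo_order (k := k) h2
    have hhost : ∀ x y, outer (d + 1) x → outer (d + 1) y → ρ' x = ρ' y → x = y := by
      intro x y hx hy hxy
      rcases outer_succ.1 hx with rfl | hx' <;> rcases outer_succ.1 hy with rfl | hy'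
      · rfl
      · rw [hlv, hup y hy'] at hxy
        exact absurd hxy.symm (hH.ne y hy' _)
      · rw [hlv, hup x hx'] at hxy
        exact absurd hxy (hH.ne x hx' _)
      · rw [hup x hx', hup y hy'] at hxy
        exact hH.rinj x y hx' hy' hxy
    have hcond : ∀ a ∈ A, ∀ b ∈ A', ee b a ≠ 0 → eo (le k) b a := by
      intro a ha b hb hab
      cases a with
      | inl x =>
        cases b with
        | inl y =>
          have h4 : (if s (.inl x) = ρ' y then (1 : ZMod 2) else 0) ≠ 0 := hab
          by_cases h5 : s (.inl x) = ρ' y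
          · exact hhost y x (hA' _ hb) (hA _ ha) h5.symm
          · rw [if_neg h5] at h4
            exact absurd rfl h4
        | inr t' => trivial
      | inr t =>
        cases b with
        | inl y =>
          have h4 : (if s (.inr t) = ρ' y then (1 : ZMod 2) else 0) ≠ 0 := hab
          by_cases h5 : s (.inr t) = ρ' y
          · rw [hsinr t ha] at h5
            exact absurd h5.symm ((hsub ⟨t, ha⟩).ne y (hA' _ hb) _)
          · rw [if_neg h5] at h4
            exact absurd rfl h4
        | inr t' =>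
          have h4 : vt K k ρ' (d + 1) (s (.inr t)) t' ≠ 0 := hab
          rw [hsinr t ha] at h4
          exact ((hG ⟨t, ha⟩).2.2 K ρ' _ (hsub ⟨t, ha⟩)).2 t' (hA' _ hb) h4
    obtain ⟨c1, c2⟩ := h3 (E k) (eo (le k)) r1 r2 r3 A ee A' hcond
    refine ⟨fun h => c1 (by rw [← hval]; exact h), fun h hn => ?_⟩
    refine hval.trans (c2 h (by rw [h]; exact hn) fun a ha => ?_)
    cases a with
    | inl x =>
      show (if s (.inl x) = ρ' x then (1 : ZMod 2) else 0) = 1
      rw [if_pos (hsinl x)]
    | inr t =>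
      show vt K k ρ' (d + 1) (s (.inr t)) t = 1
      rw [hsinr t ha]
      exact ((hG ⟨t, ha⟩).2.2 K ρ' _ (hsub ⟨t, ha⟩)).1

theorem wf_one (τ : Bool) : ∀ (k d : ℕ), wf τ k d (one k)
  | 0, _ => trivial
  | _ + 1, _ => trivial

theorem le_one {k : ℕ} {t : T k} (h : le k t (one k)) : t = one k := by
  cases k with
  | zero =>
    rcases h with h | h
    · exact h
    · exact h
  | succ k =>
    rcases h with h | h | h
    · exact h
    · exact h
    · cases t with
      | inl x => exact h.elim
      | inr A => exact h.elim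

theorem a5_ind (h2 : A2) (h3 : A3) (τ : Bool) : ∀ (k d : ℕ) (t : T k), wf τ k d t →
    ∃ G : Gd, Good τ k d t G := by
  intro k
  induction k with
  | zero =>
    intro d t _
    refine ⟨⟨Unit, (), fun _ _ => τ = true, fun _ _ => False, fun i _ => t = (some i : Option ℕ)⟩,
      fun _ _ h => h.elim, fun h _ => Or.inl ⟨(), h⟩, ?_⟩
    intro K ρ ι hH
    refine ⟨?_, ?_⟩
    · cases t with
      | none => rfl
      | some i =>
        show (if K.V i (ι ()) then (1 : ZMod 2) else 0) = 1
        rw [if_pos ((hH.V i ()).2 rfl)]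
    · intro t' _ h
      cases t' with
      | none => exact Or.inl rfl
      | some i =>
        have h' : (if K.V i (ι ()) then (1 : ZMod 2) else 0) ≠ 0 := h
        by_cases hv : K.V i (ι ())
        · exact Or.inr ((hH.V i ()).1 hv).symm
        · rw [if_neg hv] at h'
          exact absurd rfl h'
  | succ k ih =>
    intro d t ht
    have ihd := ih (d + 1)
    have ht0 : (∃ o : Option ℕ, t = (Sum.inl o : Option ℕ ⊕ Finset (E k))) ∨
        ∃ A : Finset (E k), t = tst A := by
      cases t with
      | inl o => exact Or.inl ⟨o, rfl⟩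
      | inr A => exact Or.inr ⟨A, rfl⟩
    rcases ht0 with ⟨o, rfl⟩ | ⟨A, rfl⟩
    · -- atoms
      set A : Finset (E k) := if τ = true then {Sum.inr (one k)} else ∅ with hAdef
      have hA : ∀ e ∈ A, ewf (wf τ k (d + 1)) (d + 1) e := by
        intro e he
        rw [hAdef] at he
        split_ifs at he
        · rw [Finset.mem_singleton] at he
          subst he
          exact wf_one τ k (d + 1)
        · simp at he
      have hne : τ = true → A.Nonempty := by
        intro h
        rw [hAdef, if_pos h]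
        exact ⟨_, Finset.mem_singleton_self _⟩
      obtain ⟨G, g1, g2, g3⟩ := core h2 h3 τ k d A (fun i => o = some i) hA hne ihd
      refine ⟨G, g1, g2, fun K ρ ι hH => ?_⟩
      obtain ⟨v1, v2⟩ := g3 K ρ ι hH
      refine ⟨?_, ?_⟩
      · cases o with
        | none => rfl
        | some i =>
          show (if K.V i (ι G.root) then (1 : ZMod 2) else 0) = 1
          rw [if_pos ((v1 i).2 rfl)]
      · intro t' ht' h
        cases t' with
        | inl o' =>
          cases o' with
          | none => exact Or.inl rfl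
          | some i =>
            have h' : (if K.V i (ι G.root) then (1 : ZMod 2) else 0) ≠ 0 := h
            by_cases hv : K.V i (ι G.root)
            · refine Or.inr (Or.inl ?_)
              rw [(v1 i).1 hv]
            · rw [if_neg hv] at h'
              exact absurd rfl h'
        | inr A' =>
          exfalso
          obtain ⟨w1, w2, w3⟩ := ht'
          obtain ⟨f, f1, f2⟩ := (v2 A' w3).1 h
          by_cases hτ : τ = true
          · apply w2 hτ
            rw [Finset.eq_singleton_iff_nonempty_unique_mem]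
            refine ⟨Finset.nonempty_iff_ne_empty.2 w1, fun b hb => ?_⟩
            obtain ⟨a, ha, hab⟩ := f2 b hb
            have hle := f1 a ha b hab
            rw [hAdef, if_pos hτ, Finset.mem_singleton] at ha
            subst ha
            cases b with
            | inl x => exact hle.elim
            | inr s => exact congrArg _ (le_one hle)
          · obtain ⟨b, hb⟩ := Finset.nonempty_iff_ne_empty.2 w1
            obtain ⟨a, ha, -⟩ := f2 b hb
            rw [hAdef, if_neg hτ] at ha
            simp at ha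
    · obtain ⟨w1, w2, w3⟩ := ht
      obtain ⟨G, g1, g2, g3⟩ := core h2 h3 τ k d A (fun _ => False) w3
        (fun _ => Finset.nonempty_iff_ne_empty.2 w1) ihd
      refine ⟨G, g1, g2, fun K ρ ι hH => ?_⟩
      obtain ⟨v1, v2⟩ := g3 K ρ ι hH
      refine ⟨(v2 A w3).2 rfl (Finset.nonempty_iff_ne_empty.2 w1), ?_⟩
      intro t' ht' h
      cases t' with
      | inl o' =>
        cases o' with
        | none => exact Or.inl rfl
        | some i =>
          have h' : (if K.V i (ι G.root) then (1 : ZMod 2) else 0) ≠ 0 := h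
          rw [if_neg (fun hv => (v1 i).1 hv)] at h'
          exact absurd rfl h'
      | inr A' =>
        exact Or.inr (Or.inr ((v2 A' ht'.2.2).1 h))

theorem a5 (h2 : A2) (h3 : A3) : A5 := fun τ k d t ht => a5_ind h2 h3 τ k d t ht

end Pool.Agent.Helper82.NF
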