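import Pool.Agent.H75C.HY.NFA

set_option autoImplicit false

/-!
# Simulation: the algorithm computes the support (statement B4)
-/

namespace Pool.Agent.Helper82.NFB

open Pool.Agent.NPC Pool.Agent.H75C.HY Pool.Agent.H75C.HY.NF
open Classical

theorem good_mono {τ : Bool} {q q' : ℕ} {Tb : Tab} (h : Good τ q Tb) (hq : q ≤ q') :
    Good τ q' Tb :=
  ⟨h.nd, fun e he => (h.lt e he).trans_le hq, h.ne, h.nds, h.no, h.inj⟩

theorem dep_cons (f : Fr) (st : List Fr) :
    dep (f :: st) = dep st + if isD f = true then 1 else 0 := by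
  unfold dep
  rw [List.filter_cons]
  split_ifs <;> simp

theorem res_cons (x : ℕ) (f : Fr) (st : List Fr) :
    res x (f :: st) = if f.1 = (8, x) then (3, dep st) else res x st := rfl

theorem res_spec (x : ℕ) (st : List Fr) :
    res x st = (2, x) ∨ ∃ j ≤ dep st, res x st = (3, j) := by
  induction st with
  | nil => exact Or.inl rfl
  | cons f st ih =>
    rw [res_cons]
    have hd : dep st ≤ dep (f :: st) := by
      rw [dep_cons]
      exact Nat.le_add_right _ _
    split_ifs with h
    · exact Or.inr ⟨dep st, hd, rfl⟩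
    · rcases ih with h1 | ⟨j, hj, h1⟩
      · exact Or.inl h1
      · exact Or.inr ⟨j, hj.trans hd, h1⟩

theorem env_cons (f : Fr) (st : List Fr) (h : f.1.1 ≠ 8) : envO (f :: st) = envO st := by
  funext x
  unfold envO
  rw [res_cons, if_neg]
  intro h1
  exact h (by rw [h1])

theorem env_bind (x n : ℕ) (l : List It) (st : List Fr) :
    envO (((8, x), n, l) :: st) = Function.update (envO st) x (.lv (dep st)) := by
  funext y
  by_cases h : y = x
  · subst h
    rw [Function.update_self]
    unfold envO
    rw [res_cons, if_pos rfl]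
    rfl
  · rw [Function.update_of_ne h]
    unfold envO
    rw [res_cons, if_neg]
    intro h1
    exact h (Prod.ext_iff.1 h1).2.symm

theorem iset_one (τ : Bool) (Tb : Tab) (k : ℕ) (a : It) : ISet τ Tb k [a] = isem τ Tb k a := by
  show symmDiff (isem τ Tb k a) ∅ = _
  exact symmDiff_bot _

theorem isem_base (τ : Bool) (Tb : Tab) (k : ℕ) (a : It) (h : a.1 ≠ 6) :
    isem τ Tb k a = base k a := by
  cases k with
  | zero => rfl
  | succ k => exact if_neg h

theorem vit_le (Tb : Tab) (k : ℕ) (a : It) (h : a.1 ≤ 3 ∨ a = (4, 0)) : vit Tb k a := by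
  cases k with
  | zero => exact h
  | succ k =>
    rcases h with h | h
    · exact Or.inl h
    · exact Or.inr (Or.inl h)

/-- membership in a sum of sets -/
theorem mem_foldl {α : Type*} [DecidableEq α] (e : α) : ∀ (m : ℕ) (F : Fin m → Finset α)
    (A : Finset α), e ∈ (List.ofFn F).foldl symmDiff A ↔
      Odd ((if e ∈ A then 1 else 0) + ∑ i, (if e ∈ F i then 1 else 0)) := by
  intro m
  induction m with
  | zero =>
    intro F A
    rw [List.ofFn_zero, List.foldl_nil, Fin.sum_univ_zero, add_zero]
    by_cases h : e ∈ A <;> simp [h]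
  | succ m ih =>
    intro F A
    rw [List.ofFn_succ, List.foldl_cons, ih, Fin.sum_univ_succ, ← add_assoc]
    generalize ∑ i : Fin m, (if e ∈ F i.succ then 1 else 0) = N
    by_cases h1 : e ∈ A <;> by_cases h2 : e ∈ F 0 <;>
      (simp [h1, h2, Finset.mem_symmDiff, Nat.odd_add]; try grind)

section sim
variable {𝔅 : Base} (τ : Bool) (C : ℕ → ℕ → Bool) (c0 : ℕ → Bool)

/-- simulation of one formula -/
def Sim (φ : Form 𝔅) : Prop := ∀ (p : ℕ) (Tb : Tab) (st : List Fr), Good τ p Tb → dep st ≤ p →
  ∃ (Tb' : Tab) (s : List It),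
    ((pr φ).zipIdx p).foldl (stp τ C c0) (Tb, st) = (Tb', dlv C s st) ∧
    Good τ (p + (pr φ).length) Tb' ∧ Tb <+: Tb' ∧ s.Nodup ∧
    (∀ k, md φ ≤ k → (∀ a ∈ s, vit Tb' k a) ∧
      ISet τ Tb' k s = sup τ φ k (envO st) (dep st))

theorem iset_mono (h5 : B5) {p : ℕ} {Tb Tb' : Tab} (hg : Good τ p Tb') (hp : Tb <+: Tb') (k : ℕ)
    (s : List It) (hs : ∀ a ∈ s, vit Tb k a) :
    (∀ a ∈ s, vit Tb' k a) ∧ ISet τ Tb' k s = ISet τ Tb k s := by
  refine ⟨fun a ha => (h5.2.1 τ p Tb Tb' hg hp k a (hs a ha)).1, ?_⟩
  unfold ISet
  congr 1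
  exact List.map_congr_left fun a ha => (h5.2.1 τ p Tb Tb' hg hp k a (hs a ha)).2

/-- the arguments of a connective -/
theorem args (h5 : B5) (ix : ℕ) : ∀ (m : ℕ) (φ : Fin m → Form 𝔅) (_ : ∀ i, Sim τ C c0 (φ i))
    (o p : ℕ) (Tb : Tab) (st : List Fr) (acc : List It), Good τ p Tb → dep st ≤ p → acc.Nodup →
    ∃ (Tb' : Tab) (acc' : List It),
      (((List.ofFn (fun i => pr (φ i) ++ [((4, o + (i : ℕ)) : Tok)])).flatten).zipIdx p).foldl
        (stp τ C c0) (Tb, ((3, ix), o, acc) :: st) = (Tb', ((3, ix), o + m, acc') :: st) ∧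
      Good τ (p + ((List.ofFn (fun i => pr (φ i) ++ [((4, o + (i : ℕ)) : Tok)])).flatten).length)
        Tb' ∧ Tb <+: Tb' ∧ acc'.Nodup ∧
      ∀ k, (∀ i, md (φ i) ≤ k) → (∀ a ∈ acc, vit Tb k a) → (∀ a ∈ acc', vit Tb' k a) ∧
        ISet τ Tb' k acc' = (List.ofFn (fun i : Fin m => if C ix (o + (i : ℕ)) = true then
          sup τ (φ i) k (envO st) (dep st) else ∅)).foldl symmDiff (ISet τ Tb k acc) := by
  intro m
  induction m with
  | zero =>
    intro φ _ o p Tb st acc hg hd hn
    refine ⟨Tb, acc, by simp, by simpa using hg, List.prefix_refl _, hn, fun k _ hv => ⟨hv, ?_⟩⟩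
    simp
  | succ m ih =>
    intro φ hφ o p Tb st acc hg hd hn
    have hd1 : dep (((3, ix), o, acc) :: st) = dep st := by
      rw [dep_cons]
      simp [isD]
    have he1 : envO (((3, ix), o, acc) :: st) = envO st := env_cons _ _ (by norm_num)
    obtain ⟨Tb1, s, e1, g1, p1, n1, v1⟩ := hφ 0 p Tb (((3, ix), o, acc) :: st) hg (by rw [hd1]; exact hd)
    set acc1 : List It := if C ix o = true then xm acc s else acc with hacc1
    have hn1 : acc1.Nodup := by
      rw [hacc1]
      split_ifs
      · exact (h5.1 τ Tb 0 acc s hn n1).1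
      · exact hn
    have e2 : dlv C s (((3, ix), o, acc) :: st) = ((3, ix), o, acc1) :: st := by
      simp [dlv, updF, hacc1]
    obtain ⟨Tb2, acc2, e3, g2, p2, n2, v2⟩ := ih (fun i => φ i.succ) (fun i => hφ i.succ) (o + 1)
      (p + (pr (φ 0)).length + 1) Tb1 st acc1 (good_mono g1 (Nat.le_succ _)) (by omega) hn1
    have hlist : (List.ofFn (fun i : Fin (m + 1) => pr (φ i) ++ [((4, o + (i : ℕ)) : Tok)])).flatten =
        (pr (φ 0) ++ [(4, o)]) ++ (List.ofFn (fun i : Fin m =>
          pr (φ i.succ) ++ [((4, o + 1 + (i : ℕ)) : Tok)])).flatten := by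
      rw [List.ofFn_succ, List.flatten_cons]
      congr 1
      congr 1
      refine congrArg _ (funext fun i => ?_)
      rw [Fin.val_succ, show o + ((i : ℕ) + 1) = o + 1 + i by ring]
    refine ⟨Tb2, acc2, ?_, ?_, p1.trans p2, n2, ?_⟩
    · rw [hlist, List.zipIdx_append, List.foldl_append, List.zipIdx_append, List.foldl_append, e1, e2]
      have e4 : ([((4, o) : Tok)].zipIdx (p + (pr (φ 0)).length)).foldl (stp τ C c0)
          (Tb1, ((3, ix), o, acc1) :: st) = (Tb1, ((3, ix), o + 1, acc1) :: st) := by
        simp [stp, setI]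
      rw [e4]
      have e5 : p + (pr (φ 0) ++ [((4, o) : Tok)]).length = p + (pr (φ 0)).length + 1 := by
        simp
        omega
      rw [e5, e3]
      rw [show o + 1 + m = o + (m + 1) by ring]
    · rw [hlist, List.length_append]
      have e5 : p + (pr (φ 0)).length + 1 = p + (pr (φ 0) ++ [((4, o) : Tok)]).length := by
        simp
        omega
      rw [e5] at g2
      rw [← add_assoc]
      exact g2
    · intro k hk hv
      obtain ⟨w1, w2⟩ := v1 k (hk 0)
      rw [hd1, he1] at w2
      obtain ⟨u1, u2⟩ := iset_mono τ h5 g1 p1 k acc hv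
      have hv1 : ∀ a ∈ acc1, vit Tb1 k a := by
        rw [hacc1]
        split_ifs
        · intro a ha
          rcases (h5.1 τ Tb1 k acc s hn n1).2.1 a ha with h | h
          · exact u1 a h
          · exact w1 a h
        · exact u1
      have hI1 : ISet τ Tb1 k acc1 = symmDiff (ISet τ Tb k acc)
          (if C ix o = true then sup τ (φ 0) k (envO st) (dep st) else ∅) := by
        rw [hacc1]
        split_ifs
        · rw [(h5.1 τ Tb1 k acc s hn n1).2.2, u2, w2]
        · rw [u2]
          exact (symmDiff_bot _).symm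
      obtain ⟨x1, x2⟩ := v2 k (fun i => hk i.succ) hv1
      refine ⟨x1, ?_⟩
      rw [x2, hI1, List.ofFn_succ, List.foldl_cons]
      congr 1
      refine congrArg _ (funext fun i => ?_)
      rw [Fin.val_succ, show o + ((i : ℕ) + 1) = o + 1 + i by ring]

end sim

theorem b4 (h5 : B5) : B4 := by
  intro 𝔅 haff τ C c0 hC φ
  have main : NoAt φ → Sim τ C c0 φ := by
    induction φ with
    | prop i =>
      intro _ p Tb st hg hd
      refine ⟨Tb, [(0, i)], by simp [pr, stp], good_mono hg (Nat.le_add_right _ _),
        List.prefix_refl _, List.nodup_singleton _, fun k _ => ⟨fun a ha => ?_, ?_⟩⟩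
      · rw [List.mem_singleton] at ha
        subst ha
        exact vit_le _ _ _ (Or.inl (by norm_num))
      · rw [iset_one, isem_base _ _ _ _ (by norm_num)]
        simp [base, sup]
    | nom i =>
      intro _ p Tb st hg hd
      refine ⟨Tb, [(1, i)], by simp [pr, stp], good_mono hg (Nat.le_add_right _ _),
        List.prefix_refl _, List.nodup_singleton _, fun k _ => ⟨fun a ha => ?_, ?_⟩⟩
      · rw [List.mem_singleton] at ha
        subst ha
        exact vit_le _ _ _ (Or.inl (by norm_num))
      · rw [iset_one, isem_base _ _ _ _ (by norm_num)]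
        simp [base, sup]
    | var x =>
      intro _ p Tb st hg hd
      refine ⟨Tb, [rsv p x st], by simp [pr, stp], good_mono hg (Nat.le_add_right _ _),
        List.prefix_refl _, List.nodup_singleton _, ?_⟩
      intro k _
      have hr : (rsv p x st = (4, 0) ∧ envO st x = .lv (dep st)) ∨
          (∃ j, rsv p x st = (3, j) ∧ envO st x = .lv j ∧ j ≠ dep st) ∨
          (rsv p x st = (2, x) ∧ envO st x = .fr x) := by
        unfold rsv envO
        rcases res_spec x st with h | ⟨j, hj, h⟩
        · rw [h]
          right; right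
          simp [nmO]
        · rw [h]
          by_cases hjd : j = dep st
          · left
            subst hjd
            simp [nmO]
          · right; left
            refine ⟨j, ?_, by simp [nmO], hjd⟩
            have h1 : ((3, j) : It) ≠ (3, dep st) := fun h => hjd (Prod.ext_iff.1 h).2
            rw [if_neg h1, if_pos rfl]
            show ((3, min j p) : It) = (3, j)
            rw [min_eq_left (hj.trans hd)]
      rw [iset_one]
      rcases hr with ⟨h1, h2⟩ | ⟨j, h1, h2, h3⟩ | ⟨h1, h2⟩
      · rw [h1]
        refine ⟨fun a ha => ?_, ?_⟩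
        · rw [List.mem_singleton] at ha
          subst ha
          exact vit_le _ _ _ (Or.inr rfl)
        · rw [isem_base _ _ _ _ (by norm_num), sup, if_pos h2]
          simp [base]
      · rw [h1]
        refine ⟨fun a ha => ?_, ?_⟩
        · rw [List.mem_singleton] at ha
          subst ha
          exact vit_le _ _ _ (Or.inl le_rfl)
        · rw [isem_base _ _ _ _ (by norm_num), sup, h2, if_neg]
          · simp [base]
          · intro h
            exact h3 (Nm.lv.inj h)
      · rw [h1]
        refine ⟨fun a ha => ?_, ?_⟩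
        · rw [List.mem_singleton] at ha
          subst ha
          exact vit_le _ _ _ (Or.inl (by norm_num))
        · rw [isem_base _ _ _ _ (by norm_num), sup, h2, if_neg]
          · simp [base]
          · intro h
            exact Nm.noConfusion h
    | app b φ ih =>
      intro hno p Tb st hg hd
      obtain ⟨hc0, hCi⟩ := hC b
      set acc0 : List It := if c0 (𝔅.idx b) = true then [(4, 0)] else [] with hacc0
      obtain ⟨Tb', acc, e1, g1, p1, n1, v1⟩ := args τ C c0 h5 (𝔅.idx b) (𝔅.ar b) φ
        (fun i => ih i (hno i)) 0 (p + 1) Tb st acc0 (good_mono hg (Nat.le_succ _))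
        (hd.trans (Nat.le_succ _)) (by rw [hacc0]; split_ifs <;> simp)
      simp only [zero_add] at e1 g1 v1
      set bl : List Tok := (List.ofFn (fun i => pr (φ i) ++ [((4, (i : ℕ)) : Tok)])).flatten with hbl
      have hpr : pr (.app b φ : Form 𝔅) = (3, 𝔅.idx b) :: (bl ++ [(5, 0)]) := rfl
      refine ⟨Tb', acc, ?_, ?_, p1, n1, ?_⟩
      · rw [hpr, List.zipIdx_cons, List.foldl_cons, List.zipIdx_append, List.foldl_append]
        have e2 : stp τ C c0 (Tb, st) ((3, 𝔅.idx b), p) = (Tb, ((3, 𝔅.idx b), 0, acc0) :: st) := by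
          simp [stp, hacc0]
        rw [e2, e1]
        simp [stp]
      · rw [hpr]
        refine good_mono g1 ?_
        simp
        omega
      · intro k hk
        have hmd : ∀ i, md (φ i) ≤ k := fun i =>
          le_trans (Finset.le_sup (f := fun i => md (φ i)) (Finset.mem_univ i)) hk
        obtain ⟨w1, w2⟩ := v1 k hmd (by
          rw [hacc0]
          split_ifs
          · intro a ha
            rw [List.mem_singleton] at ha
            subst ha
            exact vit_le _ _ _ (Or.inr rfl)
          · intro a ha
            simp at ha)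
        refine ⟨w1, ?_⟩
        rw [w2]
        obtain ⟨c, S, hev⟩ := haff b
        have hc : c0 (𝔅.idx b) = c := by
          rw [hc0, hev]
          simp
        have hCS : ∀ i : Fin (𝔅.ar b), C (𝔅.idx b) i = decide (i ∈ S) := by
          intro i
          rw [hCi i, hev, hev]
          have h1 : S.filter (fun j => decide (j = i) = true) = if i ∈ S then {i} else ∅ := by
            ext j
            simp only [Finset.mem_filter, decide_eq_true_eq]
            split_ifs with h
            · rw [Finset.mem_singleton]
              constructor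
              · exact fun h => h.2
              · rintro rfl
                exact ⟨h, rfl⟩
            · simp only [Finset.notMem_empty, iff_false]
              rintro ⟨h2, rfl⟩
              exact h h2
          rw [h1]
          by_cases h : i ∈ S <;> cases c <;> simp [h]
        ext e
        rw [mem_foldl]
        have hA0 : (if e ∈ ISet τ Tb k acc0 then 1 else 0) =
            if c = true ∧ e = Sum.inr (one k) then 1 else 0 := by
          refine if_congr ?_ rfl rfl
          rw [hacc0, hc]
          split_ifs with h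
          · rw [iset_one, isem_base _ _ _ _ (by norm_num)]
            simp [base, h]
          · simp [ISet, h]
        have hsum : ∑ i : Fin (𝔅.ar b), (if e ∈ (if C (𝔅.idx b) i = true then
            sup τ (φ i) k (envO st) (dep st) else ∅) then 1 else 0) =
            (S.filter (fun i => decide (e ∈ sup τ (φ i) k (envO st) (dep st)) = true)).card := by
          have h2 : ∀ i : Fin (𝔅.ar b), (if e ∈ (if C (𝔅.idx b) i = true then
              sup τ (φ i) k (envO st) (dep st) else ∅) then 1 else 0) =
              if i ∈ S then (if e ∈ sup τ (φ i) k (envO st) (dep st) then 1 else 0) else 0 := by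
            intro i
            rw [hCS i]
            by_cases h : i ∈ S <;> simp [h]
          rw [Finset.sum_congr rfl (fun i _ => h2 i), Finset.sum_ite_mem, Finset.univ_inter,
            Finset.card_filter]
          exact Finset.sum_congr rfl fun i _ => if_congr (by simp) rfl rfl
        rw [hA0, hsum]
        have hmem : e ∈ sup τ (.app b φ) k (envO st) (dep st) ↔
            (e = Sum.inr (one k) ∨ ∃ i, e ∈ sup τ (φ i) k (envO st) (dep st)) ∧
            xor (xor c (decide (Odd (S.filter (fun i =>
              decide (e ∈ sup τ (φ i) k (envO st) (dep st)) = true)).card)))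
              (if e = Sum.inr (one k) then false else c) = true := by
          rw [sup, Finset.mem_filter, Finset.mem_insert, Finset.mem_biUnion, hev, hev]
          simp
        rw [hmem]
        set N := (S.filter (fun i =>
              decide (e ∈ sup τ (φ i) k (envO st) (dep st)) = true)).card with hN
        by_cases he : e = Sum.inr (one k)
        · cases c <;> simp [he, Nat.odd_add, parity_simps]
        · simp only [he, and_false, if_false, zero_add, false_or]
          constructor
          · intro h
            refine ⟨?_, by cases c <;> simp [h]⟩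
            have h3 : 0 < N := h.pos
            rw [hN, Finset.card_pos] at h3
            obtain ⟨i, hi⟩ := h3
            rw [Finset.mem_filter] at hi
            exact ⟨i, by simpa using hi.2⟩
          · rintro ⟨-, h⟩
            cases c <;> simpa using h
    | dia φ ih =>
      intro hno p Tb st hg hd
      have hd1 : dep (((6, 0), 0, []) :: st) = dep st + 1 := by
        rw [dep_cons]
        simp [isD]
      have he1 : envO (((6, 0), 0, []) :: st) = envO st := env_cons _ _ (by norm_num)
      obtain ⟨Tb1, s, e1, g1, p1, n1, v1⟩ := ih hno (p + 1) Tb (((6, 0), 0, []) :: st)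
        (good_mono hg (Nat.le_succ _)) (by rw [hd1]; omega)
      obtain ⟨g2, p2, n2, v2⟩ := h5.2.2 τ (p + 1 + (pr φ).length) Tb1 s g1 n1
      refine ⟨_, _, ?_, ?_, p1.trans p2, n2, ?_⟩
      · rw [pr, List.zipIdx_cons, List.foldl_cons, List.zipIdx_append, List.foldl_append]
        have e2 : stp τ C c0 (Tb, st) ((6, 0), p) = (Tb, ((6, 0), 0, []) :: st) := by
          simp [stp]
        rw [e2, e1]
        simp [stp, dlv, updF]
      · refine good_mono g2 ?_
        simp [pr]
        omega
      · intro k hk
        obtain ⟨k', rfl⟩ : ∃ k', k = k' + 1 := ⟨k - 1, by simp only [md] at hk; omega⟩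
        obtain ⟨w1, w2⟩ := v1 k' (by simp only [md] at hk; omega)
        rw [hd1, he1] at w2
        obtain ⟨y1, y2⟩ := v2 k' w1
        refine ⟨y1, ?_⟩
        rw [y2, w2]
        rfl
    | box φ ih =>
      intro hno p Tb st hg hd
      have hd1 : dep (((7, 0), 0, []) :: st) = dep st + 1 := by
        rw [dep_cons]
        simp [isD]
      have he1 : envO (((7, 0), 0, []) :: st) = envO st := env_cons _ _ (by norm_num)
      obtain ⟨Tb1, s, e1, g1, p1, n1, v1⟩ := ih hno (p + 1) Tb (((7, 0), 0, []) :: st)
        (good_mono hg (Nat.le_succ _)) (by rw [hd1]; omega)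
      have n1' := (h5.1 τ Tb1 0 s [(4, 0)] n1 (List.nodup_singleton _)).1
      obtain ⟨g2, p2, n2, v2⟩ := h5.2.2 τ (p + 1 + (pr φ).length) Tb1 (xm s [(4, 0)]) g1 n1'
      refine ⟨(cls τ (p + 1 + (pr φ).length) Tb1 (xm s [(4, 0)])).1,
        xm (cls τ (p + 1 + (pr φ).length) Tb1 (xm s [(4, 0)])).2 [(4, 0)], ?_, ?_, p1.trans p2,
        (h5.1 τ Tb1 0 _ [(4, 0)] n2 (List.nodup_singleton _)).1, ?_⟩
      · rw [pr, List.zipIdx_cons, List.foldl_cons, List.zipIdx_append, List.foldl_append]
        have e2 : stp τ C c0 (Tb, st) ((7, 0), p) = (Tb, ((7, 0), 0, []) :: st) := by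
          simp [stp]
        rw [e2, e1]
        simp [stp, dlv, updF]
      · refine good_mono g2 ?_
        simp [pr]
        omega
      · intro k hk
        obtain ⟨k', rfl⟩ : ∃ k', k = k' + 1 := ⟨k - 1, by simp only [md] at hk; omega⟩
        obtain ⟨w1, w2⟩ := v1 k' (by simp only [md] at hk; omega)
        rw [hd1, he1] at w2
        obtain ⟨z1, z2, z3⟩ := h5.1 τ Tb1 k' s [(4, 0)] n1 (List.nodup_singleton _)
        obtain ⟨y1, y2⟩ := v2 k' (fun a ha => by
          rcases z2 a ha with h | h
          · exact w1 a h
          · rw [List.mem_singleton] at h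
            subst h
            exact vit_le _ _ _ (Or.inr rfl))
        obtain ⟨t1, t2, t3⟩ := h5.1 τ (cls τ (p + 1 + (pr φ).length) Tb1 (xm s [(4, 0)])).1 (k' + 1)
          _ [(4, 0)] n2 (List.nodup_singleton _)
        refine ⟨fun a ha => ?_, ?_⟩
        · rcases t2 a ha with h | h
          · exact y1 a h
          · rw [List.mem_singleton] at h
            subst h
            exact vit_le _ _ _ (Or.inr rfl)
        · have hone : ∀ (Tb : Tab) (k : ℕ), ISet τ Tb k [(4, 0)] = {Sum.inr (one k)} := by
            intro Tb k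
            rw [iset_one, isem_base _ _ _ _ (by norm_num)]
            simp [base]
          rw [t3, y2, z3, w2, hone, hone, symmDiff_comm, symmDiff_comm (sup τ φ k' (envO st) (dep st + 1))]
          rfl
    | bind x φ ih =>
      intro hno p Tb st hg hd
      have hd1 : dep (((8, x), 0, []) :: st) = dep st := by
        rw [dep_cons]
        simp [isD]
      obtain ⟨Tb1, s, e1, g1, p1, n1, v1⟩ := ih hno (p + 1) Tb (((8, x), 0, []) :: st)
        (good_mono hg (Nat.le_succ _)) (by rw [hd1]; omega)
      refine ⟨Tb1, s, ?_, ?_, p1, n1, ?_⟩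
      · rw [pr, List.zipIdx_cons, List.foldl_cons]
        have e2 : stp τ C c0 (Tb, st) ((8, x), p) = (Tb, ((8, x), 0, []) :: st) := by
          simp [stp]
        rw [e2, e1]
        simp [dlv]
      · refine good_mono g1 ?_
        simp [pr]
        omega
      · intro k hk
        obtain ⟨w1, w2⟩ := v1 k hk
        rw [hd1, env_bind] at w2
        exact ⟨w1, w2⟩
    | atNom i φ _ => exact fun h => h.elim
    | atVar x φ _ => exact fun h => h.elim
  intro hno p Tb st hg hd
  exact main hno p Tb st hg hd

end Pool.Agent.Helper82.NFB
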